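import Pool.Agent.H95.Brat

set_option autoImplicit false

open Pool.Agent.H95.Brat

theorem Pool.Agent.Results.MP_f8f5a4_an.Exists.result (V E : ℕ → Type) (s : ∀ i, E i → V i)
    (r : ∀ i, E i → V (i + 1)) [∀ i, Countable (E i)] [∀ i, TopologicalSpace (E i)]
    [∀ i, DiscreteTopology (E i)] (hr : ∀ i, Function.Surjective (r i))
    (hf : ∀ i v, {e | r i e = v}.Finite) :
    ∃ o : ∀ i, E i → ℤ, IsOrder r o ∧ ∃ φ : Path s r → Path s r, Function.Bijective φ ∧
      @Measurable _ _ (borel _) (borel _) φ ∧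
      ∀ x, (¬ ∀ i, IsMax r o i (x.1 i)) → Ver s r o x (φ x) := by
  letI : ∀ i, MeasurableSpace (E i) := fun _ => ⊤
  haveI : ∀ i, DiscreteMeasurableSpace (E i) := fun _ => ⟨fun _ => trivial⟩
  rw [← BorelSpace.measurable_eq (α := Path s r)]
  exact Pool.Agent.H95.Brat.main hr hf
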